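import Pool.Agent.Helper98.S3P.Defs

/-!
# T5b, line 10: the case `CaseSplitTwo` from the two ranges of the distance
-/

set_option autoImplicit false

namespace Pool.Agent.Helper98.S3P

open Finset Pool.Agent.Helper84.T5b Pool.Agent.Helper37.T5b Pool.Agent.Helper22.SL
open Pool.Agent.Helper42.T5.Pr

/-- short distance -/
def TwoNear (m k l' l : ℕ) : Prop := CaseSplitTwo m k l' l ∧ 20 * (l - l') < 7 * SS m (sL m k l')

/-- middle distance -/
def TwoFar (m k l' l : ℕ) : Prop := CaseSplitTwo m k l' l ∧ 7 * SS m (sL m k l') ≤ 20 * (l - l')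

/-- two ranges -/
theorem blk_union {P P1 P2 : ℕ → ℕ → ℕ → ℕ → Prop}
    {Ct : ℕ → ℕ → ℕ → ℕ → (Key → ℕ) → ℕ → Prop} (h : ∀ m k l' l, P m k l' l →
      P1 m k l' l ∨ P2 m k l' l) (h1 : Blk P1 Ct) (h2 : Blk P2 Ct) : Blk P Ct := by
  obtain ⟨E1, m1, h1⟩ := h1
  obtain ⟨E2, m2, h2⟩ := h2
  refine ⟨max E1 E2, max m1 m2, fun m hm => ?_⟩
  obtain ⟨K1, C1, c1, n1, a1, a2, a3, a4⟩ := h1 m ((le_max_left _ _).trans hm)
  obtain ⟨K2, C2, c2, n2, b1, b2, b3, b4⟩ := h2 m ((le_max_right _ _).trans hm)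
  refine ⟨max (max K1 K2) 1, max C1 C2, min c1 c2, max n1 n2, le_max_of_le_left a1, lt_min a2 b2,
    le_max_of_le_left a3, fun l l' hl' hll hP K hK hK' => ?_⟩
  have hl1 : (1 : ℝ) ≤ l := by
    have : 1 ≤ l := ((le_max_right _ _).trans hl').trans hll
    exact_mod_cast this
  have hC1 : ∀ E : ℕ, E ≤ max E1 E2 → (l : ℝ) ^ ((E : ℝ) / (m : ℝ)) ≤
      (l : ℝ) ^ (((max E1 E2 : ℕ) : ℝ) / (m : ℝ)) := by
    intro E hE
    refine Real.rpow_le_rpow_of_exponent_le hl1 ?_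
    have : (E : ℝ) ≤ ((max E1 E2 : ℕ) : ℝ) := by exact_mod_cast hE
    gcongr
  rcases h m (m ^ 2) l' l hP with hP1 | hP2
  · refine PrLe_mono ?_ ?_ (a4 l l' (((le_max_left _ _).trans (le_max_left _ _)).trans hl') hll hP1
      K hK hK')
    · rintro w _ ⟨c, hc, hlt⟩
      refine ⟨c, hc, lt_of_le_of_lt ?_ hlt⟩
      exact mul_le_mul (le_max_left _ _) (hC1 E1 (le_max_left _ _))
        (Real.rpow_nonneg (by linarith) _) (le_max_of_le_left a1)
    · refine mul_le_mul (le_max_left _ _) (Real.exp_le_exp.2 (neg_le_neg ?_))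
        (Real.exp_pos _).le (le_max_of_le_left a3)
      exact Real.rpow_le_rpow_of_exponent_le hl1 (min_le_left _ _)
  · refine PrLe_mono ?_ ?_ (b4 l l' (((le_max_right _ _).trans (le_max_left _ _)).trans hl') hll hP2
      K hK hK')
    · rintro w _ ⟨c, hc, hlt⟩
      refine ⟨c, hc, lt_of_le_of_lt ?_ hlt⟩
      exact mul_le_mul (le_max_right _ _) (hC1 E2 (le_max_right _ _))
        (Real.rpow_nonneg (by linarith) _) (le_max_of_le_right b1)
    · refine mul_le_mul (le_max_right _ _) (Real.exp_le_exp.2 (neg_le_neg ?_))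
        (Real.exp_pos _).le (le_max_of_le_right b3)
      exact Real.rpow_le_rpow_of_exponent_le hl1 (min_le_right _ _)

/-- **line 10, `CaseSplitTwo`** -/
theorem splitTwo_of (h1 : Blk TwoNear RpC) (h2 : Blk TwoFar RpC) : Blk CaseSplitTwo RpC :=
  blk_union (fun m k l' l h => (Nat.lt_or_ge (20 * (l - l')) (7 * SS m (sL m k l'))).imp
    (fun h' => ⟨h, h'⟩) (fun h' => ⟨h, h'⟩)) h1 h2

end Pool.Agent.Helper98.S3P
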