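import Pool.Agent.Helper98.S3P.Defs

/-!
# T5b, (S3'): the pairs of windows near a number

Three nested counts: the part of the upper window above level 0 in an arc of length
`A + FF 1 * QT + 17 NL'`, the lower window in an arc of length `min (A + FF 1 * QT) (17 NL')`, the
newborn triple in an arc of length `A`.
-/

set_option autoImplicit false

namespace Pool.Agent.Helper98.S3P

open Finset Pool.Agent.Helper27.T4 Pool.Agent.Helper84.T5b Pool.Agent.Helper37.T5b
open Pool.Agent.Helper5.ET (mask bb)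
open Pool.Agent.Helper30.T5b (pz QF QT RT ez NL BP)
open Pool.Agent.Helper39.T5 Pool.Agent.Helper50.T5 Pool.Agent.Helper57.T5
open Pool.Agent.Helper45.T5b (OK)
open Pool.Agent.Helper54.T5b (Zo ZU)

variable {m k l' l : ℕ}

/-- three nested counts -/
theorem card_three {α β γ : Type*} [DecidableEq α] [DecidableEq β] [DecidableEq γ]
    (I : Finset α) (J : α → Finset β) (K : α → β → Finset γ) {X Y Z : ℝ}
    (hY : 0 ≤ Y) (hZ : 0 ≤ Z) (h1 : (I.card : ℝ) ≤ X) (h2 : ∀ a, ((J a).card : ℝ) ≤ Y)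
    (h3 : ∀ a b, ((K a b).card : ℝ) ≤ Z) :
    ((I.sigma (fun a => (J a).sigma (fun b => K a b))).card : ℝ) ≤ X * Y * Z := by
  rw [Finset.card_sigma]
  push_cast
  calc ∑ a ∈ I, (((J a).sigma (fun b => K a b)).card : ℝ)
      ≤ ∑ _a ∈ I, Y * Z := by
        refine Finset.sum_le_sum (fun a _ => ?_)
        rw [Finset.card_sigma]
        push_cast
        calc ∑ b ∈ J a, ((K a b).card : ℝ) ≤ ∑ _b ∈ J a, Z :=
              Finset.sum_le_sum (fun b _ => h3 a b)
          _ = ((J a).card : ℝ) * Z := by rw [Finset.sum_const, nsmul_eq_mul]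
          _ ≤ Y * Z := mul_le_mul_of_nonneg_right (h2 a) hZ
    _ = (I.card : ℝ) * (Y * Z) := by rw [Finset.sum_const, nsmul_eq_mul]
    _ ≤ X * (Y * Z) := mul_le_mul_of_nonneg_right h1 (mul_nonneg hY hZ)
    _ = X * Y * Z := by ring

/-- **pairs of windows near a number** -/
theorem pairs_near (hm : 0 < m) (hl' : bb 0 ≤ mL m k l')
    (hdb' : ∀ t < rL m k l', 2 * (FF m k l' t * LL (QQ m k (sL m k l')) t) ≤
      FF m k l' (t + 1) * LL (QQ m k (sL m k l')) (t + 1))
    (hNL' : 2 * (FF m k l' (rL m k l') * LL (QQ m k (sL m k l')) (rL m k l')) ≤ NL m k l')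
    {w : Key → ℕ} (hg : GoodT m k l' l w) {o o' : JF → ℕ} (ho : o ∈ OK m k l 0)
    (ho' : o' ∈ OK m k l' 0) (A n : ℕ) :
    (((ZU m k l w o ×ˢ Zo m k l' 0 w o').filter (fun q => q.1 + q.2 ≤ n ∧
      n < q.1 + q.2 + A)).card : ℝ) ≤ E1 m k l' l A := by
  classical
  set G1 := FF m k l 1 * QT m k (sL m k l) with hG1
  set U := 17 * NL m k l' with hU
  have hcs : ∀ y, cs m k l 0 w o y < G1 := by
    intro y
    have h1 := Pool.Agent.Helper27.T5b.cs_lt m k l 0 w o y
    have h2 : LL (QQ m k (sL m k l)) (0 + 1) = QT m k (sL m k l) := by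
      rw [LL_succ, LL_zero, one_mul]
      rfl
    rw [h2] at h1
    exact h1
  have hb' : ∀ b ∈ Zo m k l' 0 w o', b < U := fun b hb =>
    Pool.Agent.Helper54.T5b.Zo_lt hm hl' hdb' hNL' hb
  -- the start of the second arc
  set st : ℕ → ℕ := fun b1 => if A + G1 ≤ U then n + 1 - b1 - (A + G1) else 0 with hst
  set T := ((Zo m k l 1 w 0).filter (fun b => n + 1 - (A + G1 + U) ≤ b ∧
      b < n + 1 - (A + G1 + U) + (A + G1 + U))).sigma (fun b1 =>
    ((Zo m k l' 0 w o').filter (fun b => st b1 ≤ b ∧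
      b < st b1 + min (A + G1) U)).sigma (fun b' =>
    (Ys m k l 0).filter (fun y => n + 1 - b1 - b' - A ≤ cs m k l 0 w o y ∧
      cs m k l 0 w o y < n + 1 - b1 - b' - A + A))) with hT
  have hsub : (ZU m k l w o ×ˢ Zo m k l' 0 w o').filter (fun q => q.1 + q.2 ≤ n ∧
      n < q.1 + q.2 + A) ⊆ T.image (fun z => (cs m k l 0 w o z.2.2 + z.1, z.2.1)) := by
    intro q hq
    rw [mem_filter, mem_product] at hq
    obtain ⟨⟨h1, h2⟩, h3, h4⟩ := hq
    unfold ZU at h1
    rw [mem_image] at h1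
    obtain ⟨⟨y, b1⟩, h5, h6⟩ := h1
    rw [mem_product] at h5
    obtain ⟨hy, hb1⟩ := h5
    simp only at hy hb1 h6
    rw [← h6] at h3 h4
    have e1 := hcs y
    have e2 := hb' q.2 h2
    rw [mem_image]
    refine ⟨⟨b1, ⟨q.2, y⟩⟩, ?_, ?_⟩
    · rw [hT, mem_sigma, mem_sigma]
      simp only [mem_filter]
      refine ⟨⟨hb1, by omega, by omega⟩, ⟨h2, ?_⟩, hy, by omega, by omega⟩
      rw [hst]
      simp only
      split_ifs with h7
      · rw [min_eq_left h7]
        constructor <;> omega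
      · rw [min_eq_right (by omega)]
        constructor <;> omega
    · simp only
      rw [h6]
  have hX := hg.up (n + 1 - (A + G1 + U)) (A + G1 + U)
  have hY : ∀ b1, (((Zo m k l' 0 w o').filter (fun b => st b1 ≤ b ∧
      b < st b1 + min (A + G1) U)).card : ℝ) ≤ _ := fun b1 =>
    hg.low o' ho' (st b1) (min (A + G1) U)
  have hZ : ∀ b1 b', (((Ys m k l 0).filter (fun y => n + 1 - b1 - b' - A ≤ cs m k l 0 w o y ∧
      cs m k l 0 w o y < n + 1 - b1 - b' - A + A)).card : ℝ) ≤ _ := fun b1 b' =>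
    hg.new o ho (n + 1 - b1 - b' - A) A
  have hcap : 0 ≤ cap m k l' := by
    unfold cap
    positivity
  have hR0 : 0 ≤ R0 m k l := by
    unfold R0
    positivity
  calc (((ZU m k l w o ×ˢ Zo m k l' 0 w o').filter (fun q => q.1 + q.2 ≤ n ∧
      n < q.1 + q.2 + A)).card : ℝ) ≤ (T.card : ℝ) := by
        exact_mod_cast (card_le_card hsub).trans card_image_le
    _ ≤ E1 m k l' l A := by
        unfold E1
        rw [hT]
        refine card_three _ _ _ ?_ ?_ hX hY hZ
        · positivity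
        · positivity

end Pool.Agent.Helper98.S3P
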