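import Pool.Agent.Helper98.S3P.Defs
import Pool.Agent.Helper59.T5b.UnShort
import Pool.Agent.Helper12.T5b.NumT2

/-!
# T5b, (S3'): the numbers
-/

set_option autoImplicit false

namespace Pool.Agent.Helper98.S3P

open Finset Pool.Agent.Helper27.T4 Pool.Agent.Helper84.T5b Pool.Agent.Helper37.T5b
open Pool.Agent.Helper5.ET (mask bb)
open Pool.Agent.Helper30.T5b (pz QF QT RT ez NL BP)
open Pool.Agent.Helper39.T5 Pool.Agent.Helper50.T5 Pool.Agent.Helper57.T5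
open Pool.Agent.Helper3.T5 (MP)
open Pool.Agent.Helper48.T5b (SplitP)
open Pool.Agent.Helper45.T5b (OK)
open Pool.Agent.Helper54.T5b (Zo ZU MSp SplitDig)

variable {m k l' l : ℕ}

/-- **the numbers of (S3')** -/
theorem num (hm : 2 ≤ m) {k : ℕ} (hk : 1 ≤ k) : ∃ l0 : ℕ, ∀ l' l (o o' : JF → ℕ), l0 ≤ l' →
    SplitDig m k l' l → SplitP m k (sL m k l') l' l → ef m k l' 0 < l →
    7 * SS m (sL m k l') ≤ 20 * (l - l') → l - l' ≤ 8 * SS m (sL m k l') →
    (∀ x, l' ≤ x → x ≤ ez m (sL m k l) l →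
      NL m k x = RT m k (sL m k l) * Jn m k (sL m k l) x) →
    ∀ nY : ℕ, (nY : ℝ) ≤ Real.sqrt (QT m k (sL m k l)) →
    E1 m k l' l ((MSp m k l' l o o').Ne + (MSp m k l' l o o').Ne' * QT m k (sL m k l)) *
      (nY * ((MSp m k l' l o o').C * (MSp m k l' l o o').Lam *
        (min (1 / (QT m k (sL m k l) : ℝ)) (((MSp m k l' l o o').Ne' : ℝ) /
          (MSp m k l' l o o').Ne) + 1 / (MSp m k l' l o o').q))) ≤
        Real.exp (-((SS m (sL m k l') : ℝ) / 50)) :=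
  Pool.Agent.Helper12.T5b.num_inst hm hk

/-- the lower window is short -/
theorem Un_short' (hm : 2 ≤ m) {k : ℕ} (hk : 1 ≤ k) : ∃ l0 : ℕ, ∀ l' l, l0 ≤ l' →
    SplitP m k (sL m k l') l' l → 7 * SS m (sL m k l') ≤ 20 * (l - l') →
    (∀ x, l' ≤ x → x ≤ ez m (sL m k l) l →
      NL m k x = RT m k (sL m k l) * Jn m k (sL m k l) x) →
    Un m k l' * (16 * RT m k (bL m k l')) ≤ Un m k l :=
  Pool.Agent.Helper59.T5b.Un_short' hm hk

end Pool.Agent.Helper98.S3P
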