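import Pool.Agent.Helper54.T5b.S3Fin

/-!
# T5b, (S3'): pairs across SPLIT, `ef l' 0 < l`, `7 SS ≤ 20 (l - l')`, `l - l' < 8 SS`: definitions

The tuples are counted as in (S3) (`Helper54.T5.split_far`), but the pairs of windows near `n` are
bounded by the regularity of the windows of both states and of the newborn level.
-/

set_option autoImplicit false

namespace Pool.Agent.Helper98.S3P

open Finset Pool.Agent.Helper27.T4 Pool.Agent.Helper84.T5b Pool.Agent.Helper37.T5b
open Pool.Agent.Helper30.T5b (pz QF QT RT ez NL BP)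
open Pool.Agent.Helper39.T5 Pool.Agent.Helper50.T5 Pool.Agent.Helper57.T5
open Pool.Agent.Helper45.T5b (OK)
open Pool.Agent.Helper54.T5b (Zo ZU)

/-- loss of the newborn level in arcs -/
noncomputable def R0 (m k l : ℕ) : ℝ := 27200 * (SS m (sL m k l + 1) : ℝ) * (BP k : ℝ) ^ 2

/-- loss of the windows in arcs -/
noncomputable def cap (m k l' : ℕ) : ℝ := (10 ^ 6) ^ (2 * SS m (sL m k l' - 1))

/-- the newborn level and the windows of the two states are regular -/
structure GoodT (m k l' l : ℕ) (w : Key → ℕ) : Prop where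
  new : ∀ o ∈ OK m k l 0, ∀ a L : ℕ, (((Ys m k l 0).filter (fun y =>
    a ≤ cs m k l 0 w o y ∧ cs m k l 0 w o y < a + L)).card : ℝ) ≤
      R0 m k l * (1 + ((L : ℝ) / FF m k l 1 + 1) / Real.sqrt (QT m k (sL m k l)))
  up : ∀ a L : ℕ, (((Zo m k l 1 w 0).filter (fun b => a ≤ b ∧ b < a + L)).card : ℝ) ≤
    cap m k l' * (1 + ((L : ℝ) / (Jn m k (sL m k l) l * QT m k (sL m k l)) + 1) /
      Real.sqrt (QT m k (sL m k l')))
  low : ∀ o ∈ OK m k l' 0, ∀ a L : ℕ,
    (((Zo m k l' 0 w o).filter (fun b => a ≤ b ∧ b < a + L)).card : ℝ) ≤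
      cap m k l' * (1 + ((L : ℝ) / Jn m k (sL m k l') l' + 1) /
        Real.sqrt (QT m k (sL m k l')))

/-- bound for the pairs of windows near a number -/
noncomputable def E1 (m k l' l A : ℕ) : ℝ :=
  (cap m k l' * (1 + (((A + FF m k l 1 * QT m k (sL m k l) + 17 * NL m k l' : ℕ) : ℝ) /
    (Jn m k (sL m k l) l * QT m k (sL m k l)) + 1) / Real.sqrt (QT m k (sL m k l')))) *
  (cap m k l' * (1 + (((min (A + FF m k l 1 * QT m k (sL m k l)) (17 * NL m k l') : ℕ) : ℝ) /
    Jn m k (sL m k l') l' + 1) / Real.sqrt (QT m k (sL m k l')))) *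
  (R0 m k l * (1 + ((A : ℝ) / FF m k l 1 + 1) / Real.sqrt (QT m k (sL m k l))))

end Pool.Agent.Helper98.S3P
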