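import Pool.Agent.Helper98.S3P.Defs
import Pool.Agent.Helper45.T5b.GoodT
import Pool.Agent.Helper4.T5b.GoodTCongr

/-!
# T5b, (S3'): the probability of `GoodT`, its keys.  STATEMENTS
-/

set_option autoImplicit false

namespace Pool.Agent.Helper98.S3P

open Finset Pool.Agent.Helper27.T4 Pool.Agent.Helper84.T5b Pool.Agent.Helper37.T5b
open Pool.Agent.Helper5.ET (mask bb)
open Pool.Agent.Helper30.T5b (pz QF QT RT ez NL BP)
open Pool.Agent.Helper39.T5 Pool.Agent.Helper50.T5 Pool.Agent.Helper57.T5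
open Pool.Agent.Helper48.T5b (SplitP)
open Pool.Agent.Helper45.T5b (OK)
open Pool.Agent.Helper54.T5b (Zo ZU)
open Pool.Agent.Helper22.SL

variable {m k l' l : ℕ}

/-- **the probability** -/
theorem goodT_pr (hm : 2 ≤ m) {k : ℕ} (hk : 1 ≤ k) : ∃ l0 : ℕ, ∀ l' l, l0 ≤ l' → l' ≤ l →
    SplitP m k (sL m k l') l' l → ∀ K : Finset Key, keysOf m k l ⊆ K → keysOf m k l' ⊆ K →
    PrG (Mk m k) K (fun w => ¬ GoodT m k l' l w)
      (3 * Real.exp (-(2 * (SS m (sL m k l) : ℝ)))) :=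
  Pool.Agent.Helper45.T5b.goodT_pr hm hk

/-- **the keys** -/
theorem goodT_congr (hm : 0 < m) (hl : bb 0 ≤ mL m k l) (hl' : bb 0 ≤ mL m k l')
    (hr : 0 < rL m k l) {w w' : Key → ℕ} {P : Key → Prop}
    (h : ∀ q, q ∈ keysOf m k l ∨ q ∈ keysOf m k l' → P q → w q = w' q)
    (hP : ∀ a t f o y, P (Key.S a t f o y)) (hV : ∀ a L b, P (Key.V a L b))
    (hg : GoodT m k l' l w) : GoodT m k l' l w' :=
  Pool.Agent.Helper4.T5b.goodT_congr hm hl hl' hr h hP hV hg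

end Pool.Agent.Helper98.S3P
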